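import Mathlib
import Pool.Agent.H52.Lambert

set_option autoImplicit false
open Pool.Agent.H52.Lambert

namespace Pool.Agent.Results.MP_29e051_nt.NotAutomatic

/-- The number A_k, the sum over n at least 1 of 1 / (k^n - 1). -/
noncomputable def A (k : ℕ) : ℝ := ∑' n : ℕ, 1 / ((k : ℝ) ^ (n + 1) - 1)

/-- The base-k digits of x after the radix point, indexed from 0. -/
noncomputable def digit (k : ℕ) (x : ℝ) (n : ℕ) : ℕ := ⌊(k : ℝ) * Int.fract ((k : ℝ) ^ n * x)⌋₊

/-- A deterministic finite automaton with output, reading the base-k representation of n from the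
most significant digit, outputs a n. -/
def IsAutomatic (k : ℕ) (a : ℕ → ℕ) : Prop :=
  ∃ (σ : Type) (_ : Fintype σ) (s₀ : σ) (δ : σ → ℕ → σ) (o : σ → ℕ),
    ∀ n, a n = o ((Nat.digits k n).reverse.foldl δ s₀)

/-- For every k at least 2, the base-k digit sequence of A_k is not k-automatic. -/
theorem result (k : ℕ) (hk : 2 ≤ k) : ¬ IsAutomatic k (digit k (A k)) := by
  rintro ⟨σ, _, s₀, δ, o, h⟩
  refine not_finite_kernel k hk (fun n => (Nat.digits k n).reverse.foldl δ s₀) (digit k (A k))
    (fun n => by rw [digit, A, S_zero k hk]) ?_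
  intro n n' h1 h2 he t r hr
  have hl : (Nat.digits k r).length ≤ t := (Nat.digits_length_le_iff (by omega) r).2 hr
  obtain ⟨j, rfl⟩ : ∃ j, t = (Nat.digits k r).length + j := ⟨t - (Nat.digits k r).length, by omega⟩
  rw [h, h, ← Nat.digits_append_zeroes_append_digits (by omega) h1,
    ← Nat.digits_append_zeroes_append_digits (by omega) h2]
  simp only [List.reverse_append, List.foldl_append]
  rw [he]

end Pool.Agent.Results.MP_29e051_nt.NotAutomatic
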